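import Mathlib

/-! # Binomial coefficients and factorials are Diophantine -/

namespace Pool.Agent.MRDPh23

open Dioph Finset

theorem digit_aux (u : ℕ) (hu : 0 < u) (k : ℕ) : ∀ (N : ℕ) (c : ℕ → ℕ), (∀ i, c i < u) →
    ((∑ i ∈ range N, c i * u ^ i) / u ^ k) % u = if k < N then c k else 0 := by
  induction k with
  | zero =>
    intro N c hc
    cases N with
    | zero => simp
    | succ N =>
      rw [Finset.sum_range_succ']
      have : ∀ i, c (i + 1) * u ^ (i + 1) = u * (c (i + 1) * u ^ i) := fun i => by ring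
      simp only [this, ← Finset.mul_sum]
      simp [Nat.add_mod, Nat.mod_eq_of_lt (hc 0)]
  | succ k ih =>
    intro N c hc
    cases N with
    | zero => simp
    | succ N =>
      rw [Finset.sum_range_succ', pow_succ', ← Nat.div_div_eq_div_mul]
      have : ∀ i, c (i + 1) * u ^ (i + 1) = u * (c (i + 1) * u ^ i) := fun i => by ring
      simp only [this, ← Finset.mul_sum]
      have h1 : (u * ∑ i ∈ range N, c (i + 1) * u ^ i + c 0 * u ^ 0) / u =
          ∑ i ∈ range N, c (i + 1) * u ^ i := by
        rw [Nat.mul_add_div hu]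
        simp [Nat.div_eq_of_lt (hc 0)]
      rw [h1, ih N (fun i => c (i + 1)) (fun i => hc _)]
      simp

theorem choose_eq (n k : ℕ) :
    n.choose k = ((2 ^ n + 1 + 1) ^ n / (2 ^ n + 1) ^ k) % (2 ^ n + 1) := by
  have h := digit_aux (2 ^ n + 1) (by positivity) k (n + 1) (fun i => n.choose i)
    (fun i => Nat.lt_succ_of_le (Nat.choose_le_two_pow _ _))
  rw [add_pow (2 ^ n + 1) 1 n]
  simp only [one_pow, mul_one, Nat.cast_id]
  rw [show ∑ m ∈ range (n + 1), (2 ^ n + 1) ^ m * (n.choose m) =
    ∑ i ∈ range (n + 1), n.choose i * (2 ^ n + 1) ^ i from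
      Finset.sum_congr rfl fun i _ => mul_comm _ _, h]
  split_ifs with hk
  · rfl
  · exact Nat.choose_eq_zero_of_lt (by omega)

theorem choose_dioph {α : Type} {f g : (α → ℕ) → ℕ} (df : DiophFn f) (dg : DiophFn g) :
    DiophFn fun v => (f v).choose (g v) := by
  have hu : DiophFn fun v => 2 ^ f v + 1 :=
    Dioph.add_dioph (Dioph.pow_dioph (Dioph.const_dioph 2) df) (Dioph.const_dioph 1)
  have h : DiophFn fun v => ((2 ^ f v + 1 + 1) ^ f v / (2 ^ f v + 1) ^ g v) % (2 ^ f v + 1) :=
    Dioph.mod_dioph (Dioph.div_dioph (Dioph.pow_dioph (Dioph.add_dioph hu (Dioph.const_dioph 1)) df)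
      (Dioph.pow_dioph hu dg)) hu
  have e : (fun v => (f v).choose (g v)) =
      fun v => ((2 ^ f v + 1 + 1) ^ f v / (2 ^ f v + 1) ^ g v) % (2 ^ f v + 1) := by
    funext v
    exact choose_eq _ _
  rw [e]
  exact h

theorem pow_le_aux (a b m : ℕ) : (a + b) ^ m ≤ b ^ m + m * a * (a + b) ^ (m - 1) := by
  induction m with
  | zero => simp
  | succ m ih =>
    have h1 : m * a * (b * (a + b) ^ (m - 1)) ≤ m * a * (a + b) ^ m := by
      rcases m with _ | m
      · simp
      · refine Nat.mul_le_mul_left _ ?_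
        rw [pow_succ' (a + b) m]
        exact Nat.mul_le_mul_right _ (by omega)
    calc (a + b) ^ (m + 1) = a * (a + b) ^ m + b * (a + b) ^ m := by ring
      _ ≤ a * (a + b) ^ m + b * (b ^ m + m * a * (a + b) ^ (m - 1)) := by gcongr
      _ = a * (a + b) ^ m + b ^ (m + 1) + m * a * (b * (a + b) ^ (m - 1)) := by ring
      _ ≤ a * (a + b) ^ m + b ^ (m + 1) + m * a * (a + b) ^ m := by gcongr
      _ = b ^ (m + 1) + (m + 1) * a * (a + b) ^ (m + 1 - 1) := by
        simp only [Nat.add_sub_cancel]; ring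

theorem factorial_eq_of_lt (n r : ℕ) (h : (n.factorial + 1) * (n * n) < r) :
    r ^ n / r.choose n = n.factorial := by
  have hnr : n ≤ r := by
    have : n ≤ n * n := Nat.le_mul_self n
    have h2 : n * n ≤ (n.factorial + 1) * (n * n) := Nat.le_mul_of_pos_left _ (by omega)
    omega
  have hpos : 0 < r.choose n := Nat.choose_pos hnr
  have hfac : 0 < n.factorial := Nat.factorial_pos n
  have hd : r.descFactorial n = n.factorial * r.choose n :=
    Nat.descFactorial_eq_factorial_mul_choose r n
  refine Nat.div_eq_of_lt_le ?_ ?_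
  · rw [← hd]
    exact Nat.descFactorial_le_pow r n
  · -- r ^ n < (n! + 1) * choose r n
    rcases Nat.eq_zero_or_pos n with rfl | hn
    · simp
    refine Nat.lt_of_mul_lt_mul_left (a := n.factorial) ?_
    have e1 : n.factorial * ((n.factorial + 1) * r.choose n) =
        (n.factorial + 1) * r.descFactorial n := by rw [hd]; ring
    rw [e1]
    have h1 : (r - n) ^ n ≤ r.descFactorial n :=
      (Nat.pow_le_pow_left (by omega) n).trans (Nat.pow_sub_le_descFactorial r n)
    have h2 := pow_le_aux n (r - n) n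
    rw [show n + (r - n) = r by omega] at h2
    have h3 : r ^ n = r * r ^ (n - 1) := by
      rw [← pow_succ', Nat.sub_add_cancel hn]
    have hr : 0 < r ^ (n - 1) := Nat.pos_of_ne_zero (pow_ne_zero _ (by omega))
    have h4 : (n.factorial + 1) * (n * n) * r ^ (n - 1) < r * r ^ (n - 1) :=
      Nat.mul_lt_mul_of_pos_right h hr
    have h5 : (n.factorial + 1) * r ^ n ≤
        (n.factorial + 1) * r.descFactorial n + (n.factorial + 1) * (n * n) * r ^ (n - 1) := by
      calc (n.factorial + 1) * r ^ n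
          ≤ (n.factorial + 1) * (r.descFactorial n + n * n * r ^ (n - 1)) := by
            gcongr
            exact h2.trans (by gcongr)
        _ = _ := by ring
    have h6 : (n.factorial + 1) * r ^ n = n.factorial * r ^ n + r * r ^ (n - 1) := by
      rw [← h3]; ring
    omega

theorem factorial_eq (n : ℕ) :
    n.factorial = ((n + 1) ^ (n + 3)) ^ n / ((n + 1) ^ (n + 3)).choose n := by
  symm
  refine factorial_eq_of_lt n _ ?_
  have h1 : n.factorial ≤ (n + 1) ^ n :=
    (Nat.factorial_le_pow n).trans (Nat.pow_le_pow_left (by omega) n)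
  have h0 : 1 ≤ (n + 1) ^ n := Nat.one_le_pow _ _ (by omega)
  calc (n.factorial + 1) * (n * n) ≤ (2 * (n + 1) ^ n) * (n * n) := by
        gcongr; omega
    _ = (n + 1) ^ n * (2 * (n * n)) := by ring
    _ < (n + 1) ^ n * ((n + 1) ^ 3) := by
        refine Nat.mul_lt_mul_of_pos_left ?_ (by omega)
        have : (n + 1) ^ 3 = n ^ 3 + 3 * (n * n) + 3 * n + 1 := by ring
        rw [this]
        have : 0 ≤ n ^ 3 := Nat.zero_le _
        omega
    _ = (n + 1) ^ (n + 3) := by rw [pow_add]

theorem factorial_dioph {α : Type} {f : (α → ℕ) → ℕ} (df : DiophFn f) :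
    DiophFn fun v => (f v).factorial := by
  have h1 : DiophFn fun v => f v + 1 := Dioph.add_dioph df (Dioph.const_dioph 1)
  have h3 : DiophFn fun v => f v + 3 := Dioph.add_dioph df (Dioph.const_dioph 3)
  have hr : DiophFn fun v => (f v + 1) ^ (f v + 3) := Dioph.pow_dioph h1 h3
  have h : DiophFn fun v => ((f v + 1) ^ (f v + 3)) ^ (f v) /
      ((f v + 1) ^ (f v + 3)).choose (f v) :=
    Dioph.div_dioph (Dioph.pow_dioph hr df) (choose_dioph hr df)
  have e : (fun v => (f v).factorial) =
      fun v => ((f v + 1) ^ (f v + 3)) ^ (f v) / ((f v + 1) ^ (f v + 3)).choose (f v) := by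
    funext v
    exact factorial_eq _
  rw [e]
  exact h

end Pool.Agent.MRDPh23
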