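import Mathlib

/-! # Number theory behind the bounded universal quantifier theorem -/

namespace Pool.Agent.MRDPh23

open Finset Nat

/-- the moduli -/
def md (t i : ℕ) : ℕ := t / (i + 1) + 1

theorem mul_md {t i : ℕ} (h : i + 1 ∣ t) : (i + 1) * md t i = t + (i + 1) := by
  rw [md, mul_add, Nat.mul_div_cancel' h, mul_one]

theorem prod_md (t N : ℕ) (h : ∀ i < N, i + 1 ∣ t) :
    ∏ i ∈ range N, md t i = (t + N).choose N := by
  induction N with
  | zero => simp
  | succ N ih =>
    rw [Finset.prod_range_succ, ih fun i hi => h i (by omega)]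
    have h1 := Nat.add_one_mul_choose_eq (t + N) N
    have h2 := mul_md (h N (by omega))
    have h3 : (N + 1) * ((t + N).choose N * md t N) = (N + 1) * ((t + (N + 1)).choose (N + 1)) := by
      calc (N + 1) * ((t + N).choose N * md t N) = (t + N).choose N * ((N + 1) * md t N) := by ring
        _ = (t + N).choose N * (t + (N + 1)) := by rw [h2]
        _ = (t + N + 1) * (t + N).choose N := by ring
        _ = _ := by rw [h1]; ring_nf
    exact Nat.eq_of_mul_eq_mul_left (by omega) h3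

theorem prime_gt {Q q i : ℕ} (hq : q.Prime) (hi : i + 1 ≤ Q) (hd : q ∣ md (Q ! * Q !) i) :
    Q < q := by
  by_contra hle
  push Not at hle
  have h1 : q ∣ Q ! := Nat.dvd_factorial hq.pos hle
  have h2 : i + 1 ∣ Q ! := Nat.dvd_factorial (by omega) hi
  have h3 : q ∣ (Q ! * Q !) / (i + 1) := by
    rw [Nat.mul_div_assoc _ h2]
    exact h1.mul_right _
  have h4 : q ∣ 1 := (Nat.dvd_add_right h3).1 hd
  exact hq.one_lt.ne' (Nat.dvd_one.1 h4)

theorem coprime_md {Q N i j : ℕ} (hN : N ≤ Q) (hi : i < N) (hj : j < N) (hij : i < j) :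
    Nat.Coprime (md (Q ! * Q !) i) (md (Q ! * Q !) j) := by
  rw [Nat.coprime_iff_gcd_eq_one] at *
  by_contra hne
  obtain ⟨q, hq, hqd⟩ := Nat.exists_prime_and_dvd hne
  have hqi : q ∣ md (Q ! * Q !) i := hqd.trans (Nat.gcd_dvd_left _ _)
  have hqj : q ∣ md (Q ! * Q !) j := hqd.trans (Nat.gcd_dvd_right _ _)
  have hlt := prime_gt hq (by omega) hqi
  have hdi : i + 1 ∣ Q ! * Q ! := (Nat.dvd_factorial (by omega) (by omega)).mul_right _
  have hdj : j + 1 ∣ Q ! * Q ! := (Nat.dvd_factorial (by omega) (by omega)).mul_right _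
  have h1 : q ∣ Q ! * Q ! + (i + 1) := by rw [← mul_md hdi]; exact hqi.mul_left _
  have h2 : q ∣ Q ! * Q ! + (j + 1) := by rw [← mul_md hdj]; exact hqj.mul_left _
  have h3 : q ∣ (Q ! * Q ! + (j + 1)) - (Q ! * Q ! + (i + 1)) := Nat.dvd_sub h2 h1
  have h4 : (Q ! * Q ! + (j + 1)) - (Q ! * Q ! + (i + 1)) = j - i := by omega
  rw [h4] at h3
  have := Nat.le_of_dvd (by omega) h3
  omega

theorem coprime_md_of_ne {Q N i j : ℕ} (hN : N ≤ Q) (hi : i < N) (hj : j < N) (hij : i ≠ j) :
    Nat.Coprime (md (Q ! * Q !) i) (md (Q ! * Q !) j) := by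
  rcases lt_or_gt_of_ne hij with h | h
  · exact coprime_md hN hi hj h
  · exact (coprime_md hN hj hi h).symm

/-- residues of numbers whose binomial coefficient is divisible by a big prime are small -/
theorem mod_le_of_dvd_choose {q a u : ℕ} (hq : q.Prime) (hu : u < q) (h : q ∣ a.choose (u + 1)) :
    a % q ≤ u := by
  have h1 : q ∣ a.descFactorial (u + 1) := by
    rw [Nat.descFactorial_eq_factorial_mul_choose]
    exact h.mul_left _
  rw [Nat.descFactorial_eq_prod_range] at h1
  obtain ⟨y, hy, hyd⟩ := (Nat.Prime.prime hq).exists_mem_finset_dvd h1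
  rw [Finset.mem_range] at hy
  rcases Nat.lt_or_ge a y with hlt | hge
  · have := Nat.mod_le a q
    omega
  · have h2 : a ≡ y [MOD q] := ((Nat.modEq_iff_dvd' hge).2 hyd).symm
    rw [show a % q = y % q from h2, Nat.mod_eq_of_lt (by omega)]
    omega

/-- and conversely -/
theorem dvd_choose_of_modEq {m a u x : ℕ} (hcop : Nat.Coprime m (u + 1)!) (hx : x ≤ u)
    (h : a ≡ x [MOD m]) : m ∣ a.choose (u + 1) := by
  rcases Nat.lt_or_ge a (u + 1) with hlt | hge
  · rw [Nat.choose_eq_zero_of_lt hlt]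
    exact dvd_zero _
  · have h1 : m ∣ a - x := (Nat.modEq_iff_dvd' (by omega)).1 h.symm
    have h2 : m ∣ a.descFactorial (u + 1) := by
      rw [Nat.descFactorial_eq_prod_range]
      exact h1.trans (Finset.dvd_prod_of_mem (fun i => a - i) (by simpa using Nat.lt_succ_of_le hx))
    rw [Nat.descFactorial_eq_factorial_mul_choose] at h2
    exact hcop.dvd_of_dvd_mul_left h2

/-- the congruence which makes the argument work -/
theorem code_modEq {Q N i : ℕ} (hN : N ≤ Q) (hi : i < N) (M : ℕ) (hM : md (Q ! * Q !) i ∣ M)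
    (hpos : 0 < M) :
    (((Q ! * Q ! + 1) * (M - 1) : ℕ) : ℤ) ≡ i [ZMOD md (Q ! * Q !) i] := by
  have hdi : i + 1 ∣ Q ! * Q ! := (Nat.dvd_factorial (by omega) (by omega)).mul_right _
  have h1 := mul_md hdi
  set t := Q ! * Q ! with ht
  have hM' : ((M - 1 : ℕ) : ℤ) = (M : ℤ) - 1 := by
    rw [Nat.cast_sub (by omega)]; simp
  obtain ⟨k, hk⟩ := hM
  have h2 : ((i : ℤ) + 1) * (md t i : ℤ) = (t : ℤ) + (i + 1) := by exact_mod_cast h1
  refine (Int.modEq_iff_dvd).2 ⟨(i + 1) - (t + 1) * k, ?_⟩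
  have hk' : (M : ℤ) = md t i * k := by exact_mod_cast hk
  push_cast
  rw [hM', hk']
  linear_combination -h2

theorem bforall_key {β : Type} [Finite β] (P : ℕ → (β → ℕ) → ℤ)
    (hmod : ∀ (q : ℤ) (i i' : ℕ) (x x' : β → ℕ), (i : ℤ) ≡ i' [ZMOD q] →
      (∀ j, (x j : ℤ) ≡ x' j [ZMOD q]) → P i x ≡ P i' x' [ZMOD q])
    (N : ℕ) (Q : ℕ → ℕ)
    (hQ : ∀ u i x, i < N → (∀ j, x j ≤ u) → (P i x).natAbs ≤ Q u)
    (hQN : ∀ u, N ≤ Q u) (hQu : ∀ u, u + 1 ≤ Q u) :
    (∀ i < N, ∃ x, P i x = 0) ↔ ∃ (u : ℕ) (a : β → ℕ),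
      (∀ j, ((Q u)! * (Q u)! + N).choose N ∣ (a j).choose (u + 1)) ∧
      (((Q u)! * (Q u)! + N).choose N : ℤ) ∣
        P (((Q u)! * (Q u)! + 1) * (((Q u)! * (Q u)! + N).choose N - 1)) a := by
  have hprod : ∀ u, ∏ i ∈ range N, md ((Q u)! * (Q u)!) i = ((Q u)! * (Q u)! + N).choose N :=
    fun u => prod_md _ _ fun i hi =>
      (Nat.dvd_factorial (by omega) (by have := hQN u; omega)).mul_right _
  have hpos : ∀ u, 0 < ((Q u)! * (Q u)! + N).choose N := fun u =>
    Nat.choose_pos (by omega)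
  have hdvd : ∀ u, ∀ i < N, md ((Q u)! * (Q u)!) i ∣ ((Q u)! * (Q u)! + N).choose N := by
    intro u i hi
    rw [← hprod u]
    exact Finset.dvd_prod_of_mem _ (Finset.mem_range.2 hi)
  constructor
  · intro h
    choose! x hx using h
    -- a common bound for all values
    obtain ⟨u, hu⟩ : ∃ u, ∀ i < N, ∀ j, x i j ≤ u := by
      have : ∀ i, ∃ b, ∀ j, x i j ≤ b := fun i => by
        obtain ⟨b, hb⟩ := (Set.finite_range (x i)).bddAbove
        exact ⟨b, fun j => hb ⟨j, rfl⟩⟩
      choose b hb using this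
      refine ⟨(range N).sup b, fun i hi j => (hb i j).trans ?_⟩
      exact Finset.le_sup (f := b) (Finset.mem_range.2 hi)
    set t := (Q u)! * (Q u)! with ht
    have hcop : Set.Pairwise (↑(range N) : Set ℕ) (Function.onFun Nat.Coprime (md t)) := by
      intro i hi j hj hij
      simp only [Finset.coe_range, Set.mem_Iio] at hi hj
      exact coprime_md_of_ne (hQN u) hi hj hij
    have hne : ∀ i ∈ range N, md t i ≠ 0 := fun i _ => by simp [md]
    let a : β → ℕ := fun j => (Nat.chineseRemainderOfFinset (fun i => x i j) (md t) (range N)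
      hne hcop).1
    have ha : ∀ i < N, ∀ j, a j ≡ x i j [MOD md t i] := fun i hi j =>
      (Nat.chineseRemainderOfFinset (fun i => x i j) (md t) (range N) hne hcop).2 i
        (Finset.mem_range.2 hi)
    have hcop2 : ∀ i < N, Nat.Coprime (md t i) (u + 1)! := by
      intro i hi
      rw [Nat.coprime_iff_gcd_eq_one]
      by_contra hne
      obtain ⟨q, hq, hqd⟩ := Nat.exists_prime_and_dvd hne
      have h1 := prime_gt hq (by have := hQN u; omega) (hqd.trans (Nat.gcd_dvd_left _ _))
      have h2 := (hq.dvd_factorial).1 (hqd.trans (Nat.gcd_dvd_right _ _))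
      have h3 := hQu u
      omega
    refine ⟨u, a, fun j => ?_, ?_⟩
    · rw [← hprod u]
      refine Finset.prod_dvd_of_isRelPrime (fun i hi j hj hij => ?_) fun i hi => ?_
      · simp only [Finset.coe_range, Set.mem_Iio] at hi hj
        exact Nat.coprime_iff_isRelPrime.1 (coprime_md_of_ne (hQN u) hi hj hij)
      · rw [Finset.mem_range] at hi
        exact dvd_choose_of_modEq (hcop2 i hi) (hu i hi j) (ha i hi j)
    · have hz : ∀ i < N, (md t i : ℤ) ∣ P ((t + 1) * ((t + N).choose N - 1)) a := by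
        intro i hi
        have h1 := code_modEq (hQN u) hi _ (hdvd u i hi) (hpos u)
        have h2 := hmod (md t i) _ _ a (x i) h1 (fun j => by
          exact_mod_cast (Int.natCast_modEq_iff.2 (ha i hi j)))
        rw [hx i hi] at h2
        exact Int.modEq_zero_iff_dvd.1 h2
      have : ((t + N).choose N : ℤ) = ∏ i ∈ range N, (md t i : ℤ) := by
        rw [← hprod u]; push_cast; rfl
      rw [this]
      refine Finset.prod_dvd_of_coprime (fun i hi j hj hij => ?_) fun i hi => ?_
      · simp only [Finset.coe_range, Set.mem_Iio] at hi hj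
        exact Nat.Coprime.isCoprime (coprime_md_of_ne (hQN u) hi hj hij)
      · exact hz i (Finset.mem_range.1 hi)
  · rintro ⟨u, a, ha, hP⟩ i hi
    set t := (Q u)! * (Q u)! with ht
    have hm1 : md t i ≠ 1 := by
      have h1 : 0 < t / (i + 1) := by
        apply Nat.div_pos _ (by omega)
        have h2 : i + 1 ∣ (Q u)! := Nat.dvd_factorial (by omega) (by have := hQN u; omega)
        have h3 := Nat.le_of_dvd (Nat.factorial_pos _) h2
        have h4 : (Q u)! ≤ t := Nat.le_mul_of_pos_left _ (Nat.factorial_pos _)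
        omega
      simp only [md]; omega
    obtain ⟨q, hq, hqd⟩ := Nat.exists_prime_and_dvd hm1
    have hqQ : Q u < q := prime_gt hq (by have := hQN u; omega) hqd
    have hqM : q ∣ (t + N).choose N := hqd.trans (hdvd u i hi)
    have hle : ∀ j, a j % q ≤ u := fun j =>
      mod_le_of_dvd_choose hq (by have := hQu u; omega) (hqM.trans (ha j))
    refine ⟨fun j => a j % q, ?_⟩
    have h1 := code_modEq (hQN u) hi _ (hdvd u i hi) (hpos u)
    have h1' : (((t + 1) * ((t + N).choose N - 1) : ℕ) : ℤ) ≡ i [ZMOD q] :=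
      h1.of_dvd (by exact_mod_cast hqd)
    have h2 := hmod q _ _ a (fun j => a j % q) h1' (fun j => by
      push_cast
      exact (Int.mod_modEq _ _).symm)
    have h3 : (q : ℤ) ∣ P ((t + 1) * ((t + N).choose N - 1)) a :=
      dvd_trans (by exact_mod_cast hqM) hP
    have h4 : (q : ℤ) ∣ P i (fun j => a j % q) :=
      Int.modEq_zero_iff_dvd.1 (h2.symm.trans (Int.modEq_zero_iff_dvd.2 h3))
    have h5 := hQ u i (fun j => a j % q) hi hle
    by_contra hne
    have h6 : (q : ℤ).natAbs ≤ (P i (fun j => a j % q)).natAbs :=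
      Nat.le_of_dvd (Int.natAbs_pos.2 hne) (Int.natAbs_dvd_natAbs.2 h4)
    simp only [Int.natAbs_natCast] at h6
    omega

end Pool.Agent.MRDPh23
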