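import Pool.Agent.Lib.MRDPh23.PolyAux
import Pool.Agent.Lib.MRDPh23.Choose
import Pool.Agent.Lib.MRDPh23.Key

/-! # The bounded universal quantifier theorem -/

namespace Pool.Agent.MRDPh23

open Dioph

theorem sum_dioph {γ ι : Type} (s : Finset ι) {g : ι → (γ → ℕ) → ℕ}
    (h : ∀ i, DiophFn (g i)) : DiophFn fun v => ∑ i ∈ s, g i v := by
  classical
  induction s using Finset.induction_on with
  | empty =>
    simp only [Finset.sum_empty]
    exact Dioph.const_dioph (α := γ) 0
  | insert i s hi ih =>
    have := Dioph.add_dioph (h i) ih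
    simpa [Finset.sum_insert hi] using this

theorem bforall_dioph {α : Type} [Finite α] {S : Set (Option α → ℕ)} (d : Dioph S) :
    Dioph {v : Option α → ℕ | ∀ i < v none, (fun o : Option α => o.elim i (v ∘ some)) ∈ S} := by
  classical
  have : Fintype α := Fintype.ofFinite α
  obtain ⟨β, hβ, p, hp⟩ := dioph_finite d
  obtain ⟨c, k, hck⟩ := isPoly_bound p.isPoly
  let W := (Option α ⊕ Option (Option β)) → ℕ
  let N : W → ℕ := fun w => w (Sum.inl none)
  let u : W → ℕ := fun w => w (Sum.inr (some none))
  let B : W → ℕ := fun w => N w + u w + ∑ j : α, w (Sum.inl (some j))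
  let Q : W → ℕ := fun w => c * (B w + 1) ^ k + B w + 1
  let t : W → ℕ := fun w => (Q w).factorial * (Q w).factorial
  let M : W → ℕ := fun w => (t w + N w).choose (N w)
  let C : W → ℕ := fun w => (t w + 1) * (M w - 1)
  let φ : Option α ⊕ β → Option α ⊕ Option (Option β) :=
    Sum.elim (fun o => o.elim (Sum.inr none) (fun j => Sum.inl (some j)))
      (fun j => Sum.inr (some (some j)))
  have dN : DiophFn N := Dioph.proj_dioph _
  have du : DiophFn u := Dioph.proj_dioph _
  have dB : DiophFn B := Dioph.add_dioph (Dioph.add_dioph dN du)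
    (sum_dioph Finset.univ fun j => Dioph.proj_dioph _)
  have dQ : DiophFn Q := Dioph.add_dioph (Dioph.add_dioph
    (Dioph.mul_dioph (Dioph.const_dioph c) (Dioph.pow_dioph
      (Dioph.add_dioph dB (Dioph.const_dioph 1)) (Dioph.const_dioph k))) dB) (Dioph.const_dioph 1)
  have dt : DiophFn t := Dioph.mul_dioph (factorial_dioph dQ) (factorial_dioph dQ)
  have dM : DiophFn M := choose_dioph (Dioph.add_dioph dt dN) dN
  have dC : DiophFn C := Dioph.mul_dioph (Dioph.add_dioph dt (Dioph.const_dioph 1))
    (Dioph.sub_dioph dM (Dioph.const_dioph 1))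
  have d1 : Dioph {w : W | w (Sum.inr none) = C w} := Dioph.eq_dioph (Dioph.proj_dioph _) dC
  have d2 : Dioph {w : W | ∀ j : β, w ∈ {w : W | M w ∣
      (w (Sum.inr (some (some j)))).choose (u w + 1)}} := by
    refine forall_finite fun j => ?_
    exact Dioph.dvd_dioph dM (choose_dioph (Dioph.proj_dioph _)
      (Dioph.add_dioph du (Dioph.const_dioph 1)))
  have d3 : Dioph {w : W | M w ∣ ((p.map φ) w).natAbs} :=
    Dioph.dvd_dioph dM (Dioph.abs_poly_dioph (p.map φ))
  refine (Dioph.ex_dioph ((d1.inter d2).inter d3)).ext fun v => ?_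
  -- the key equivalence
  let P : ℕ → (β → ℕ) → ℤ := fun i x =>
    p (Sum.elim (fun o : Option α => o.elim i (v ∘ some)) x)
  let B' : ℕ → ℕ := fun u => v none + u + ∑ j : α, v (some j)
  let Q' : ℕ → ℕ := fun u => c * (B' u + 1) ^ k + B' u + 1
  have key := bforall_key P (by
      intro q i i' x x' hi hx
      refine isPoly_modEq p.isPoly q _ _ ?_
      rintro ((_ | j) | j)
      · simpa using hi
      · simp only [Sum.elim_inl, Option.elim_some]; exact Int.ModEq.refl _
      · simpa using hx j) (v none) Q' (by
      intro u i x hi hx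
      have h1 := hck (B' u) (Sum.elim (fun o : Option α => o.elim i (v ∘ some)) x) (by
        rintro ((_ | j) | j)
        · simp only [Sum.elim_inl, Option.elim_none, B']; omega
        · simp only [Sum.elim_inl, Option.elim_some, B', Function.comp]
          have := Finset.single_le_sum (f := fun j : α => v (some j)) (fun _ _ => Nat.zero_le _)
            (Finset.mem_univ j)
          omega
        · simp only [Sum.elim_inr, B']
          have := hx j
          omega)
      show (P i x).natAbs ≤ c * (B' u + 1) ^ k + B' u + 1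
      exact h1.trans (by omega)) (by
      intro u
      show v none ≤ c * (B' u + 1) ^ k + (v none + u + ∑ j : α, v (some j)) + 1
      omega) (by
      intro u
      show u + 1 ≤ c * (B' u + 1) ^ k + (v none + u + ∑ j : α, v (some j)) + 1
      omega)
  have hS : (∀ i < v none, (fun o : Option α => o.elim i (v ∘ some)) ∈ S) ↔
      ∀ i < v none, ∃ x, P i x = 0 := by
    refine forall_congr' fun i => forall_congr' fun _ => ?_
    exact hp _
  have hgoal : v ∈ {v : Option α → ℕ | ∀ i < v none, (fun o : Option α => o.elim i (v ∘ some)) ∈ S} ↔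
      ∀ i < v none, (fun o : Option α => o.elim i (v ∘ some)) ∈ S := Iff.rfl
  rw [hgoal, hS, key]
  constructor
  · rintro ⟨x, ⟨h1, h2⟩, h3⟩
    refine ⟨x (some none), fun j => x (some (some j)), fun j => h2 j, ?_⟩
    have h3' : M (Sum.elim v x) ∣ ((p.map φ) (Sum.elim v x)).natAbs := h3
    have h1' : x none = C (Sum.elim v x) := h1
    have e : (p.map φ) (Sum.elim v x) = P (C (Sum.elim v x)) fun j => x (some (some j)) := by
      rw [Poly.map_apply]
      show _ = p _
      congr 1
      funext i
      rcases i with (_ | j) | j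
      · simp [φ, h1']
      · simp [φ]
      · simp [φ]
    rw [e] at h3'
    exact Int.natCast_dvd.2 h3'
  · rintro ⟨u0, a, h2, h3⟩
    let x0 : Option (Option β) → ℕ := fun o => o.elim 0 fun o' => o'.elim u0 a
    let x : Option (Option β) → ℕ := fun o => o.elim (C (Sum.elim v x0)) fun o' => o'.elim u0 a
    refine ⟨x, ⟨?_, ?_⟩, ?_⟩
    · show x none = C (Sum.elim v x)
      rfl
    · exact fun j => h2 j
    · show M (Sum.elim v x) ∣ ((p.map φ) (Sum.elim v x)).natAbs
      have e : (p.map φ) (Sum.elim v x) = P (C (Sum.elim v x)) a := by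
        rw [Poly.map_apply]
        show _ = p _
        congr 1
        funext i
        rcases i with (_ | j) | j
        · simp [φ]; rfl
        · simp [φ]
        · simp [φ, x]
      rw [e]
      exact Int.natCast_dvd.1 h3

end Pool.Agent.MRDPh23
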