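import Pool.Agent.Lib.MRDPh23.Rec

/-! # Diophantine sets as solution sets of finite lists of elementary constraints -/

namespace Pool.Agent.MRDPh23

/-- elementary constraints on natural numbers indexed by `V` -/
inductive Cstr (V : Type) : Type
  | const (i : V) (n : ℕ) : Cstr V
  | eq (i j : V) : Cstr V
  | add (i j k : V) : Cstr V
  | mul (i j k : V) : Cstr V

namespace Cstr

variable {V W : Type}

/-- satisfaction of a constraint -/
def Holds (x : V → ℕ) : Cstr V → Prop
  | const i n => x i = n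
  | eq i j => x i = x j
  | add i j k => x i + x j = x k
  | mul i j k => x i * x j = x k

/-- renaming of variables -/
def map (g : V → W) : Cstr V → Cstr W
  | const i n => const (g i) n
  | eq i j => eq (g i) (g j)
  | add i j k => add (g i) (g j) (g k)
  | mul i j k => mul (g i) (g j) (g k)

theorem holds_map (g : V → W) (x : W → ℕ) (c : Cstr V) :
    (c.map g).Holds x ↔ c.Holds (x ∘ g) := by
  cases c <;> rfl

end Cstr

theorem poly_cstr {γ : Type} {f : (γ → ℕ) → ℤ} (hf : IsPoly f) :
    ∃ (δ : Type) (_ : Countable δ) (L : List (Cstr (γ ⊕ δ))) (u v : δ), ∀ x : γ → ℕ,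
      (∃ y : δ → ℕ, ∀ c ∈ L, c.Holds (Sum.elim x y)) ∧
      ∀ y : δ → ℕ, (∀ c ∈ L, c.Holds (Sum.elim x y)) → f x = (y u : ℤ) - y v := by
  induction hf with
  | proj i =>
    refine ⟨Bool, inferInstance, [.eq (Sum.inl i) (Sum.inr true), .const (Sum.inr false) 0],
      true, false, fun x => ⟨⟨fun b => cond b (x i) 0, ?_⟩, fun y h => ?_⟩⟩
    · simp [Cstr.Holds]
    · simp only [List.mem_cons, List.not_mem_nil, or_false, forall_eq_or_imp, forall_eq,
        Cstr.Holds, Sum.elim_inl, Sum.elim_inr] at h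
      rw [← h.1, h.2]
      simp
  | const n =>
    refine ⟨Bool, inferInstance, [.const (Sum.inr true) n.toNat,
      .const (Sum.inr false) (-n).toNat], true, false,
      fun x => ⟨⟨fun b => cond b n.toNat (-n).toNat, ?_⟩, fun y h => ?_⟩⟩
    · simp [Cstr.Holds]
    · simp only [List.mem_cons, List.not_mem_nil, or_false, forall_eq_or_imp, forall_eq,
        Cstr.Holds, Sum.elim_inr] at h
      rw [h.1, h.2]
      show n = _
      omega
  | @sub f g _ _ ihf ihg =>
    obtain ⟨δ, _, L, u, v, h⟩ := ihf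
    obtain ⟨δ', _, L', u', v', h'⟩ := ihg
    let e1 : γ ⊕ δ → γ ⊕ (δ ⊕ δ' ⊕ Bool) := Sum.map id Sum.inl
    let e2 : γ ⊕ δ' → γ ⊕ (δ ⊕ δ' ⊕ Bool) := Sum.map id (Sum.inr ∘ Sum.inl)
    refine ⟨δ ⊕ δ' ⊕ Bool, inferInstance,
      L.map (Cstr.map e1) ++ L'.map (Cstr.map e2) ++
      [.add (Sum.inr (Sum.inl u)) (Sum.inr (Sum.inr (Sum.inl v')))
          (Sum.inr (Sum.inr (Sum.inr true))),
       .add (Sum.inr (Sum.inl v)) (Sum.inr (Sum.inr (Sum.inl u')))
          (Sum.inr (Sum.inr (Sum.inr false)))],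
      Sum.inr (Sum.inr true), Sum.inr (Sum.inr false), fun x => ⟨?_, fun y hy => ?_⟩⟩
    · obtain ⟨⟨y, hy⟩, -⟩ := h x
      obtain ⟨⟨y', hy'⟩, -⟩ := h' x
      refine ⟨Sum.elim y (Sum.elim y' fun b => cond b (y u + y' v') (y v + y' u')), ?_⟩
      intro c hc
      simp only [List.mem_append, List.mem_map, List.mem_cons, List.not_mem_nil, or_false] at hc
      rcases hc with (⟨c, hc, rfl⟩ | ⟨c, hc, rfl⟩) | rfl | rfl
      · rw [Cstr.holds_map]
        convert hy c hc using 1
        funext i; rcases i with i | i <;> simp [e1]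
      · rw [Cstr.holds_map]
        convert hy' c hc using 1
        funext i; rcases i with i | i <;> simp [e2]
      · simp [Cstr.Holds]
      · simp [Cstr.Holds]
    · have h1 := (h x).2 (y ∘ Sum.inl) (fun c hc => by
        have := hy (c.map e1)
          (List.mem_append_left _ (List.mem_append_left _ (List.mem_map_of_mem hc)))
        rw [Cstr.holds_map] at this
        convert this using 1
        funext i; rcases i with i | i <;> simp [e1])
      have h2 := (h' x).2 (y ∘ Sum.inr ∘ Sum.inl) (fun c hc => by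
        have := hy (c.map e2)
          (List.mem_append_left _ (List.mem_append_right _ (List.mem_map_of_mem hc)))
        rw [Cstr.holds_map] at this
        convert this using 1
        funext i; rcases i with i | i <;> simp [e2])
      have h3 : y (Sum.inl u) + y (Sum.inr (Sum.inl v')) = y (Sum.inr (Sum.inr true)) :=
        hy (.add (Sum.inr (Sum.inl u)) (Sum.inr (Sum.inr (Sum.inl v')))
          (Sum.inr (Sum.inr (Sum.inr true)))) (by simp)
      have h4 : y (Sum.inl v) + y (Sum.inr (Sum.inl u')) = y (Sum.inr (Sum.inr false)) :=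
        hy (.add (Sum.inr (Sum.inl v)) (Sum.inr (Sum.inr (Sum.inl u')))
          (Sum.inr (Sum.inr (Sum.inr false)))) (by simp)
      show f x - g x = _
      rw [h1, h2, ← h3, ← h4]
      simp only [Function.comp]
      push_cast
      ring
  | @mul f g _ _ ihf ihg =>
    obtain ⟨δ, _, L, u, v, h⟩ := ihf
    obtain ⟨δ', _, L', u', v', h'⟩ := ihg
    let e1 : γ ⊕ δ → γ ⊕ (δ ⊕ δ' ⊕ Fin 6) := Sum.map id Sum.inl
    let e2 : γ ⊕ δ' → γ ⊕ (δ ⊕ δ' ⊕ Fin 6) := Sum.map id (Sum.inr ∘ Sum.inl)
    let n : Fin 6 → γ ⊕ (δ ⊕ δ' ⊕ Fin 6) := fun i => Sum.inr (Sum.inr (Sum.inr i))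
    let a : δ → γ ⊕ (δ ⊕ δ' ⊕ Fin 6) := fun i => Sum.inr (Sum.inl i)
    let b : δ' → γ ⊕ (δ ⊕ δ' ⊕ Fin 6) := fun i => Sum.inr (Sum.inr (Sum.inl i))
    refine ⟨δ ⊕ δ' ⊕ Fin 6, inferInstance,
      L.map (Cstr.map e1) ++ L'.map (Cstr.map e2) ++
      [.mul (a u) (b u') (n 0), .mul (a v) (b v') (n 1), .mul (a u) (b v') (n 2),
        .mul (a v) (b u') (n 3), .add (n 0) (n 1) (n 4), .add (n 2) (n 3) (n 5)],
      Sum.inr (Sum.inr 4), Sum.inr (Sum.inr 5), fun x => ⟨?_, fun y hy => ?_⟩⟩
    · obtain ⟨⟨y, hy⟩, -⟩ := h x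
      obtain ⟨⟨y', hy'⟩, -⟩ := h' x
      refine ⟨Sum.elim y (Sum.elim y' ![y u * y' u', y v * y' v', y u * y' v', y v * y' u',
        y u * y' u' + y v * y' v', y u * y' v' + y v * y' u']), ?_⟩
      intro c hc
      simp only [List.mem_append, List.mem_map, List.mem_cons, List.not_mem_nil, or_false] at hc
      rcases hc with (⟨c, hc, rfl⟩ | ⟨c, hc, rfl⟩) | rfl | rfl | rfl | rfl | rfl | rfl
      · rw [Cstr.holds_map]
        convert hy c hc using 1
        funext i; rcases i with i | i <;> simp [e1]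
      · rw [Cstr.holds_map]
        convert hy' c hc using 1
        funext i; rcases i with i | i <;> simp [e2]
      all_goals simp [Cstr.Holds, a, b, n]
    · have h1 := (h x).2 (y ∘ Sum.inl) (fun c hc => by
        have := hy (c.map e1)
          (List.mem_append_left _ (List.mem_append_left _ (List.mem_map_of_mem hc)))
        rw [Cstr.holds_map] at this
        convert this using 1
        funext i; rcases i with i | i <;> simp [e1])
      have h2 := (h' x).2 (y ∘ Sum.inr ∘ Sum.inl) (fun c hc => by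
        have := hy (c.map e2)
          (List.mem_append_left _ (List.mem_append_right _ (List.mem_map_of_mem hc)))
        rw [Cstr.holds_map] at this
        convert this using 1
        funext i; rcases i with i | i <;> simp [e2])
      have k0 : Sum.elim x y (a u) * Sum.elim x y (b u') = Sum.elim x y (n 0) :=
        hy (.mul (a u) (b u') (n 0)) (by simp)
      have k1 : Sum.elim x y (a v) * Sum.elim x y (b v') = Sum.elim x y (n 1) :=
        hy (.mul (a v) (b v') (n 1)) (by simp)
      have k2 : Sum.elim x y (a u) * Sum.elim x y (b v') = Sum.elim x y (n 2) :=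
        hy (.mul (a u) (b v') (n 2)) (by simp)
      have k3 : Sum.elim x y (a v) * Sum.elim x y (b u') = Sum.elim x y (n 3) :=
        hy (.mul (a v) (b u') (n 3)) (by simp)
      have k4 : Sum.elim x y (n 0) + Sum.elim x y (n 1) = Sum.elim x y (n 4) :=
        hy (.add (n 0) (n 1) (n 4)) (by simp)
      have k5 : Sum.elim x y (n 2) + Sum.elim x y (n 3) = Sum.elim x y (n 5) :=
        hy (.add (n 2) (n 3) (n 5)) (by simp)
      rw [← k0, ← k1] at k4
      rw [← k2, ← k3] at k5
      simp only [a, b, n, Sum.elim_inr] at k4 k5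
      show f x * g x = _
      rw [h1, h2, ← k4, ← k5]
      simp only [Function.comp]
      push_cast
      ring

/-- every Diophantine set of natural numbers is given by a finite list of elementary
constraints on variables indexed by `ℕ` -/
theorem dioph_cstr {p : ℕ → Prop} (hp : Dioph {v : Unit → ℕ | p (v ())}) :
    ∃ (i₀ : ℕ) (L : List (Cstr ℕ)), ∀ n, p n ↔ ∃ x : ℕ → ℕ, x i₀ = n ∧ ∀ c ∈ L, c.Holds x := by
  obtain ⟨β, _, q, hq⟩ := dioph_finite hp
  obtain ⟨δ, _, L, u, v, h⟩ := poly_cstr q.isPoly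
  obtain ⟨e, he⟩ := exists_injective_nat ((Unit ⊕ β) ⊕ δ)
  refine ⟨e (Sum.inl (Sum.inl ())), Cstr.map e (.eq (Sum.inr u) (Sum.inr v)) ::
    L.map (Cstr.map e), fun n => ?_⟩
  have h1 : p n ↔ ∃ t, q (Sum.elim (fun _ => n) t) = 0 := hq (fun _ => n)
  rw [h1]
  constructor
  · rintro ⟨t, ht⟩
    obtain ⟨⟨y, hy⟩, hv⟩ := h (Sum.elim (fun _ => n) t)
    have hv' := hv y hy
    have ht' : (q : (Unit ⊕ β → ℕ) → ℤ) (Sum.elim (fun _ => n) t) = 0 := ht
    let z : (Unit ⊕ β) ⊕ δ → ℕ := Sum.elim (Sum.elim (fun _ => n) t) y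
    have hz : Function.extend e z 0 ∘ e = z := Function.extend_comp he _ _
    refine ⟨Function.extend e z 0, ?_, fun c hc => ?_⟩
    · rw [he.extend_apply]
      rfl
    · rw [List.mem_cons, List.mem_map] at hc
      rcases hc with rfl | ⟨c, hc, rfl⟩
      · rw [Cstr.holds_map, hz]
        show y u = y v
        have : (y u : ℤ) - y v = 0 := by rw [← hv']; exact ht'
        omega
      · rw [Cstr.holds_map, hz]
        exact hy c hc
  · rintro ⟨x, hx, hL⟩
    refine ⟨fun j => x (e (Sum.inl (Sum.inr j))), ?_⟩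
    have hz : x ∘ e = Sum.elim (Sum.elim (fun _ => n) fun j => x (e (Sum.inl (Sum.inr j))))
        (fun j => x (e (Sum.inr j))) := by
      funext i
      rcases i with (i | i) | i
      · exact hx
      · rfl
      · rfl
    have h2 := (h (Sum.elim (fun _ => n) fun j => x (e (Sum.inl (Sum.inr j))))).2
      (fun j => x (e (Sum.inr j))) (fun c hc => by
        have := hL (c.map e) (List.mem_cons_of_mem _ (List.mem_map_of_mem hc))
        rw [Cstr.holds_map, hz] at this
        exact this)
    have h3 : x (e (Sum.inr u)) = x (e (Sum.inr v)) := hL _ (List.mem_cons_self)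
    show (q : (Unit ⊕ β → ℕ) → ℤ) _ = 0
    refine h2.trans ?_
    simp [h3]

end Pool.Agent.MRDPh23
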