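import Mathlib

/-! # Auxiliary facts on `Poly` and `Dioph` (towards the DPRM theorem) -/

namespace Pool.Agent.MRDPh23

open Function

universe u

/-- an integer polynomial function depends on finitely many variables -/
theorem isPoly_support {γ : Type u} {f : (γ → ℕ) → ℤ} (hf : IsPoly f) :
    ∃ s : Finset γ, ∀ x y : γ → ℕ, (∀ i ∈ s, x i = y i) → f x = f y := by
  classical
  induction hf with
  | proj i => exact ⟨{i}, fun x y h => by simp [h i (by simp)]⟩
  | const n => exact ⟨∅, fun x y _ => rfl⟩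
  | sub _ _ ihf ihg =>
    obtain ⟨s, hs⟩ := ihf
    obtain ⟨t, ht⟩ := ihg
    refine ⟨s ∪ t, fun x y h => ?_⟩
    show _ - _ = _ - _
    rw [hs x y fun i hi => h i (Finset.mem_union_left _ hi),
      ht x y fun i hi => h i (Finset.mem_union_right _ hi)]
  | mul _ _ ihf ihg =>
    obtain ⟨s, hs⟩ := ihf
    obtain ⟨t, ht⟩ := ihg
    refine ⟨s ∪ t, fun x y h => ?_⟩
    show _ * _ = _ * _
    rw [hs x y fun i hi => h i (Finset.mem_union_left _ hi),
      ht x y fun i hi => h i (Finset.mem_union_right _ hi)]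

/-- a polynomial growth bound -/
theorem isPoly_bound {γ : Type u} {f : (γ → ℕ) → ℤ} (hf : IsPoly f) :
    ∃ c k : ℕ, ∀ (B : ℕ) (x : γ → ℕ), (∀ i, x i ≤ B) → (f x).natAbs ≤ c * (B + 1) ^ k := by
  induction hf with
  | proj i =>
    refine ⟨1, 1, fun B x h => ?_⟩
    have := h i
    simp only [Int.natAbs_natCast, pow_one, one_mul]
    omega
  | const n => exact ⟨n.natAbs, 0, fun B x h => by simp⟩
  | sub _ _ ihf ihg =>
    obtain ⟨c, k, hs⟩ := ihf
    obtain ⟨d, l, ht⟩ := ihg
    refine ⟨c + d, k + l, fun B x h => ?_⟩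
    refine (Int.natAbs_sub_le _ _).trans ?_
    have h1 := hs B x h
    have h2 := ht B x h
    have h3 : (B + 1) ^ k ≤ (B + 1) ^ (k + l) := Nat.pow_le_pow_right (by omega) (by omega)
    have h4 : (B + 1) ^ l ≤ (B + 1) ^ (k + l) := Nat.pow_le_pow_right (by omega) (by omega)
    have h5 : c * (B + 1) ^ k ≤ c * (B + 1) ^ (k + l) := Nat.mul_le_mul_left _ h3
    have h6 : d * (B + 1) ^ l ≤ d * (B + 1) ^ (k + l) := Nat.mul_le_mul_left _ h4
    rw [add_mul]
    omega
  | mul _ _ ihf ihg =>
    obtain ⟨c, k, hs⟩ := ihf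
    obtain ⟨d, l, ht⟩ := ihg
    refine ⟨c * d, k + l, fun B x h => ?_⟩
    rw [Int.natAbs_mul]
    have h1 := hs B x h
    have h2 := ht B x h
    calc _ ≤ (c * (B + 1) ^ k) * (d * (B + 1) ^ l) := Nat.mul_le_mul h1 h2
      _ = _ := by ring

/-- polynomials respect congruences -/
theorem isPoly_modEq {γ : Type u} {f : (γ → ℕ) → ℤ} (hf : IsPoly f) (m : ℤ) (x y : γ → ℕ)
    (h : ∀ i, (x i : ℤ) ≡ y i [ZMOD m]) : f x ≡ f y [ZMOD m] := by
  induction hf with
  | proj i => exact h i
  | const n => exact Int.ModEq.refl _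
  | sub _ _ ihf ihg => exact ihf.sub ihg
  | mul _ _ ihf ihg => exact ihf.mul ihg

/-- in the definition of a Diophantine set the index type of the dummy variables may be taken
finite -/
theorem dioph_finite {α : Type u} {S : Set (α → ℕ)} (d : Dioph S) :
    ∃ (β : Type u) (_ : Finite β) (p : Poly (α ⊕ β)), ∀ v, v ∈ S ↔ ∃ t, p (Sum.elim v t) = 0 := by
  classical
  obtain ⟨β, p, hp⟩ := d
  obtain ⟨s, hs⟩ := isPoly_support p.isPoly
  let s' : Finset β := s.preimage Sum.inr (Sum.inr_injective.injOn)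
  let g : β → Option s' := fun b => if h : b ∈ s' then some ⟨b, h⟩ else none
  refine ⟨Option s', inferInstance, p.map (Sum.map id g), fun v => ?_⟩
  rw [hp]
  constructor
  · rintro ⟨t, ht⟩
    refine ⟨fun o => o.elim 0 fun b => t b.1, ?_⟩
    rw [← ht, Poly.map_apply]
    refine hs _ _ fun i hi => ?_
    rcases i with a | b
    · simp
    · have hb : b ∈ s' := by simpa [s'] using hi
      simp [g, hb]
  · rintro ⟨t, ht⟩
    refine ⟨t ∘ g, ?_⟩
    rw [← ht, Poly.map_apply]
    congr 1
    funext i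
    rcases i with a | b <;> simp

/-- a finite conjunction of Diophantine conditions is Diophantine -/
theorem forall_finite {α ι : Type u} [Finite ι] {R : ι → Set (α → ℕ)}
    (h : ∀ i, Dioph (R i)) : Dioph {v | ∀ i, v ∈ R i} := by
  obtain ⟨l, hl⟩ := Finite.exists_univ_list ι
  have h1 := Dioph.DiophList.forall (l.map R) (by
    rw [List.forall_iff_forall_mem]
    intro S hS
    obtain ⟨i, _, rfl⟩ := List.mem_map.1 hS
    exact h i)
  refine h1.ext fun v => ?_
  simp only [Set.mem_ofPred_eq, List.forall_iff_forall_mem, List.mem_map, forall_exists_index,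
    and_imp, forall_apply_eq_imp_iff₂]
  exact ⟨fun H i => H i (hl.2 i), fun H i _ => H i⟩

/-- substitution of Diophantine functions for the (finitely many) variables of a Diophantine
set -/
theorem dioph_subst {α ι : Type u} [Finite ι] {S : Set (ι → ℕ)} (d : Dioph S)
    {g : ι → (α → ℕ) → ℕ} (dg : ∀ i, Dioph.DiophFn (g i)) :
    Dioph {v : α → ℕ | (fun i => g i v) ∈ S} := by
  have h1 : Dioph {w : α ⊕ ι → ℕ | ∀ i, g i (w ∘ Sum.inl) = w (Sum.inr i)} := by
    refine forall_finite (R := fun i => {w : α ⊕ ι → ℕ | g i (w ∘ Sum.inl) = w (Sum.inr i)})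
      fun i => ?_
    have := Dioph.reindex_dioph (α ⊕ ι) (fun o : Option α => o.elim (Sum.inr i) Sum.inl) (dg i)
    refine this.ext fun w => ?_
    simp only [Set.mem_ofPred_eq]
    rfl
  have h2 : Dioph {w : α ⊕ ι → ℕ | w ∘ Sum.inr ∈ S} := Dioph.reindex_dioph _ Sum.inr d
  refine (Dioph.ex_dioph (h1.inter h2)).ext fun v => ?_
  simp only [Set.mem_ofPred_eq, Set.mem_inter_iff]
  constructor
  · rintro ⟨x, hx1, hx2⟩
    have : (fun i => g i v) = x := by
      funext i
      have := hx1 i
      simpa using this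
    rw [this]
    simpa using hx2
  · intro h
    exact ⟨fun i => g i v, fun i => by simp, by simpa using h⟩

/-- composition of Diophantine functions, arbitrary finite index type -/
theorem diophFn_subst {α ι : Type u} [Finite ι] {f : (ι → ℕ) → ℕ} (df : Dioph.DiophFn f)
    {g : ι → (α → ℕ) → ℕ} (dg : ∀ i, Dioph.DiophFn (g i)) :
    Dioph.DiophFn fun v : α → ℕ => f fun i => g i v := by
  have : Dioph {v : Option α → ℕ | (fun o : Option ι => o.elim (v none)
      (fun i => g i (v ∘ some))) ∈ {w : Option ι → ℕ | f (w ∘ some) = w none}} := by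
    have := dioph_subst (α := Option α) (ι := Option ι) (S := {w | f (w ∘ some) = w none}) df
      (g := fun o v => o.elim (v none) (fun i => g i (v ∘ some))) (by
        rintro (_ | i)
        · exact Dioph.proj_dioph none
        · exact Dioph.reindex_diophFn some (dg i))
    exact this
  exact this

end Pool.Agent.MRDPh23
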