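import Pool.Agent.Lib.MRDPh23.BForall

/-! # Recursive functions are Diophantine, recursively enumerable sets are Diophantine -/

namespace Pool.Agent.MRDPh23

open Dioph

/-- bounded quantification below a Diophantine function -/
theorem ball_dioph {α : Type} [Finite α] {f : (α → ℕ) → ℕ} (df : DiophFn f)
    {R : Set (Option α → ℕ)} (dR : Dioph R) :
    Dioph {v : α → ℕ | ∀ i < f v, (fun o : Option α => o.elim i v) ∈ R} := by
  have h1 := bforall_dioph dR
  have h2 := Dioph.diophFn_comp1 h1 df
  refine h2.ext fun v => ?_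
  exact Iff.rfl

theorem ex_dioph' {α β : Type} {R : Set (α ⊕ β → ℕ)} (d : Dioph R) :
    Dioph {v : α → ℕ | ∃ x : β → ℕ, Sum.elim v x ∈ R} := Dioph.ex_dioph d

/-- the beta function -/
def bt (s t i : ℕ) : ℕ := s % ((i + 1) * t + 1)

theorem bt_dioph {α : Type} {s t i : (α → ℕ) → ℕ} (ds : DiophFn s) (dt : DiophFn t)
    (di : DiophFn i) : DiophFn fun v => bt (s v) (t v) (i v) :=
  Dioph.mod_dioph ds (Dioph.add_dioph (Dioph.mul_dioph (Dioph.add_dioph di (Dioph.const_dioph 1))
    dt) (Dioph.const_dioph 1))

theorem exists_bt (a : ℕ → ℕ) (N : ℕ) : ∃ s t, ∀ i ≤ N, bt s t i = a i := by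
  let l := (List.range (N + 1)).map a
  refine ⟨(Nat.unbeta l).unpair.1, (Nat.unbeta l).unpair.2, fun i hi => ?_⟩
  have hl : i < l.length := by simp [l]; omega
  have := Nat.beta_unbeta_coe l ⟨i, hl⟩
  unfold Nat.beta at this
  unfold bt
  rw [this]
  simp [l]

theorem rec_iff (N y b : ℕ) (g : ℕ → ℕ → ℕ) :
    (Nat.rec b (fun y IH => g y IH) N : ℕ) = y ↔
    ∃ s t, bt s t 0 = b ∧ (∀ i < N, bt s t (i + 1) = g i (bt s t i)) ∧ bt s t N = y := by
  constructor
  · rintro rfl
    obtain ⟨s, t, h⟩ := exists_bt (fun i => (Nat.rec b (fun y IH => g y IH) i : ℕ)) N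
    refine ⟨s, t, h 0 (Nat.zero_le _), fun i hi => ?_, h N le_rfl⟩
    rw [h (i + 1) hi, h i hi.le]
  · rintro ⟨s, t, h0, h1, rfl⟩
    have : ∀ i ≤ N, (Nat.rec b (fun y IH => g y IH) i : ℕ) = bt s t i := by
      intro i
      induction i with
      | zero => intro _; exact h0.symm
      | succ i ih =>
        intro hi
        rw [h1 i hi, ← ih (by omega)]
    exact this N le_rfl

theorem primrec'_dioph {n : ℕ} {f : List.Vector ℕ n → ℕ} (h : @Nat.Primrec' n f) :
    DiophFn fun v : Fin n → ℕ => f (List.Vector.ofFn v) := by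
  induction h with
  | zero => exact Dioph.const_dioph 0
  | succ =>
    have : (fun v : Fin 1 → ℕ => Nat.succ (List.Vector.ofFn v).head) = fun v => v 0 + 1 := by
      funext v
      rw [← List.Vector.get_zero, List.Vector.get_ofFn]
    rw [this]
    exact Dioph.add_dioph (Dioph.proj_dioph _) (Dioph.const_dioph 1)
  | get i =>
    simp only [List.Vector.get_ofFn]
    exact Dioph.proj_dioph i
  | @comp m n f g hf hg ihf ihg =>
    exact diophFn_subst ihf ihg
  | @prec n f g hf hg ihf ihg =>
    -- variables: the graph variables together with `s`, `t`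
    let V := Option (Fin (n + 1)) ⊕ Bool
    let s : (V → ℕ) → ℕ := fun w => w (Sum.inr true)
    let t : (V → ℕ) → ℕ := fun w => w (Sum.inr false)
    have ds : DiophFn s := Dioph.proj_dioph _
    have dt : DiophFn t := Dioph.proj_dioph _
    have d1 : Dioph {w : V → ℕ | bt (s w) (t w) 0 =
        f (List.Vector.ofFn fun j => w (Sum.inl (some j.succ)))} :=
      Dioph.eq_dioph (bt_dioph ds dt (Dioph.const_dioph 0))
        (diophFn_subst ihf (g := fun j w => w (Sum.inl (some (Fin.succ j))))
          fun j => Dioph.proj_dioph _)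
    have d3 : Dioph {w : V → ℕ | bt (s w) (t w) (w (Sum.inl (some 0))) = w (Sum.inl none)} :=
      Dioph.eq_dioph (bt_dioph ds dt (Dioph.proj_dioph _)) (Dioph.proj_dioph _)
    let G : Fin (n + 2) → (Option V → ℕ) → ℕ := fun j z =>
      Fin.cases (z none) (fun j => Fin.cases (bt (z (some (Sum.inr true)))
        (z (some (Sum.inr false))) (z none)) (fun j => z (some (Sum.inl (some j.succ)))) j) j
    have dG : ∀ j, DiophFn (G j) := by
      intro j
      refine Fin.cases ?_ (fun j => Fin.cases ?_ (fun j => ?_) j) j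
      · exact Dioph.proj_dioph _
      · exact bt_dioph (Dioph.proj_dioph _) (Dioph.proj_dioph _) (Dioph.proj_dioph _)
      · exact Dioph.proj_dioph _
    have dR : Dioph {z : Option V → ℕ | bt (z (some (Sum.inr true))) (z (some (Sum.inr false)))
        (z none + 1) = g (List.Vector.ofFn fun j => G j z)} :=
      Dioph.eq_dioph (bt_dioph (Dioph.proj_dioph _) (Dioph.proj_dioph _)
        (Dioph.add_dioph (Dioph.proj_dioph _) (Dioph.const_dioph 1))) (diophFn_subst ihg dG)
    have d2 := ball_dioph (f := fun w : V → ℕ => w (Sum.inl (some 0))) (Dioph.proj_dioph _) dR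
    refine (Dioph.ex_dioph ((d1.inter d2).inter d3)).ext fun v => ?_
    show _ ↔ (Nat.rec (f (List.Vector.ofFn (v ∘ some)).tail) (fun y IH =>
      g (y ::ᵥ IH ::ᵥ (List.Vector.ofFn (v ∘ some)).tail)) (List.Vector.ofFn (v ∘ some)).head : ℕ)
        = v none
    have ht : (List.Vector.ofFn (v ∘ some)).tail = List.Vector.ofFn fun j : Fin n =>
        v (some j.succ) := by
      rw [List.Vector.tail_ofFn]; rfl
    have hh : (List.Vector.ofFn (v ∘ some)).head = v (some 0) := by
      rw [← List.Vector.get_zero, List.Vector.get_ofFn]; rfl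
    rw [ht, hh, rec_iff]
    have hv : ∀ (a b : ℕ) (c : Fin n → ℕ), a ::ᵥ b ::ᵥ List.Vector.ofFn c =
        List.Vector.ofFn (Fin.cases a (fun j => Fin.cases b c j)) := by
      intro a b c
      apply List.Vector.ext
      intro i
      rw [List.Vector.get_ofFn]
      refine Fin.cases rfl (fun j => Fin.cases rfl (fun j => ?_) j) i
      simp [List.Vector.get_ofFn]
    constructor
    · rintro ⟨x, ⟨h1, h2⟩, h3⟩
      refine ⟨x true, x false, h1, fun i hi => ?_, h3⟩
      have this : bt (x true) (x false) (i + 1) =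
        g (List.Vector.ofFn fun j => G j (fun o => o.elim i (Sum.elim v x))) := h2 i hi
      rw [hv, this]
      congr 2
    · rintro ⟨s0, t0, h1, h2, h3⟩
      refine ⟨fun b => cond b s0 t0, ⟨h1, fun i hi => ?_⟩, h3⟩
      have := h2 i hi
      rw [hv] at this
      show bt s0 t0 (i + 1) = g (List.Vector.ofFn fun j => G j (fun o => o.elim i
        (Sum.elim v (fun b => cond b s0 t0))))
      rw [this]
      congr 2

theorem mem_mOfFn {α : Type} : ∀ {n : ℕ} (g : Fin n → Part α) (y : List.Vector α n),
    y ∈ (List.Vector.mOfFn g : Part (List.Vector α n)) ↔ ∀ i, y.get i ∈ g i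
  | 0, g, y => by
    simp only [List.Vector.mOfFn]
    constructor
    · intro _ i; exact i.elim0
    · intro _
      rw [List.Vector.eq_nil y]
      exact Part.mem_some _
  | n + 1, g, y => by
    simp only [List.Vector.mOfFn, Part.bind_eq_bind, Part.mem_bind_iff, Part.pure_eq_some,
      Part.mem_some_iff, mem_mOfFn]
    constructor
    · rintro ⟨a, ha, w, hw, rfl⟩ i
      refine Fin.cases ?_ (fun j => ?_) i
      · simpa using ha
      · simpa using hw j
    · intro h
      refine ⟨y.head, by simpa using h 0, y.tail, fun i => ?_, by simp⟩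
      rw [List.Vector.get_tail_succ]
      exact h i.succ

theorem partrec'_dioph {n : ℕ} {f : List.Vector ℕ n →. ℕ} (h : @Nat.Partrec' n f) :
    Dioph {v : Option (Fin n) → ℕ | v none ∈ f (List.Vector.ofFn (v ∘ some))} := by
  induction h with
  | @prim n f hf =>
    refine (primrec'_dioph hf).ext fun v => ?_
    show f (List.Vector.ofFn (v ∘ some)) = v none ↔ v none ∈ Part.some _
    rw [Part.mem_some_iff]
    exact eq_comm
  | @comp m n f g hf hg ihf ihg =>
    have d1 : Dioph {w : Option (Fin m) ⊕ Fin n → ℕ | ∀ i, w ∈ {w : Option (Fin m) ⊕ Fin n → ℕ |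
        w (Sum.inr i) ∈ g i (List.Vector.ofFn ((w ∘ Sum.inl) ∘ some))}} := by
      refine forall_finite fun i => ?_
      exact Dioph.reindex_dioph (Option (Fin m) ⊕ Fin n)
        (fun o : Option (Fin m) => o.elim (Sum.inr i) fun j => Sum.inl (some j)) (ihg i)
    have d2 : Dioph {w : Option (Fin m) ⊕ Fin n → ℕ |
        w (Sum.inl none) ∈ f (List.Vector.ofFn (w ∘ Sum.inr))} :=
      Dioph.reindex_dioph (Option (Fin m) ⊕ Fin n)
        (fun o : Option (Fin n) => o.elim (Sum.inl none) Sum.inr) ihf
    refine (Dioph.ex_dioph (d1.inter d2)).ext fun v => ?_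
    show _ ↔ v none ∈ Part.bind (List.Vector.mOfFn fun i => g i (List.Vector.ofFn (v ∘ some))) f
    refine Iff.trans ?_ Part.mem_bind_iff.symm
    constructor
    · rintro ⟨x, h1, h2⟩
      refine ⟨List.Vector.ofFn x, (mem_mOfFn _ _).2 fun i => ?_, h2⟩
      rw [List.Vector.get_ofFn]
      exact h1 i
    · rintro ⟨a, h1, h2⟩
      rw [mem_mOfFn] at h1
      refine ⟨a.get, fun i => h1 i, ?_⟩
      show v none ∈ f (List.Vector.ofFn a.get)
      rw [List.Vector.ofFn_get]
      exact h2
  | @rfind n f hf ihf =>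
    have e : ∀ (y : ℕ) (v : Fin n → ℕ), y ∈ (Nat.rfind fun n => (some (decide
        (f (n ::ᵥ List.Vector.ofFn v) = 0)) : Part Bool)) ↔
        f (y ::ᵥ List.Vector.ofFn v) = 0 ∧ ∀ i < y, f (i ::ᵥ List.Vector.ofFn v) ≠ 0 := by
      intro y v
      refine Iff.trans Nat.mem_rfind ?_
      simp
    have hv : ∀ (a : ℕ) (c : Fin n → ℕ), a ::ᵥ List.Vector.ofFn c =
        List.Vector.ofFn (Fin.cases a c) := by
      intro a c
      apply List.Vector.ext
      intro i
      rw [List.Vector.get_ofFn]
      refine Fin.cases rfl (fun j => ?_) i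
      simp [List.Vector.get_ofFn]
    -- `f` as a total Diophantine function
    have df : DiophFn fun v : Fin (n + 1) → ℕ => f (List.Vector.ofFn v) := by
      refine ihf.ext fun v => ?_
      show v none ∈ Part.some _ ↔ f (List.Vector.ofFn (v ∘ some)) = v none
      rw [Part.mem_some_iff]
      exact eq_comm
    have d1 : Dioph {v : Option (Fin n) → ℕ |
        f (List.Vector.ofFn (fun j => (Fin.cases (v none) (fun j => v (some j)) j : ℕ))) = 0} :=
      Dioph.eq_dioph (diophFn_subst df (g := fun j (v : Option (Fin n) → ℕ) =>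
        (Fin.cases (v none) (fun j => v (some j)) j : ℕ)) (by
          intro j
          refine Fin.cases ?_ (fun j => ?_) j
          · exact Dioph.proj_dioph _
          · exact Dioph.proj_dioph _)) (Dioph.const_dioph 0)
    have dR : Dioph {z : Option (Option (Fin n)) → ℕ |
        f (List.Vector.ofFn (fun j => (Fin.cases (z none) (fun j => z (some (some j))) j : ℕ)))
          ≠ 0} :=
      Dioph.ne_dioph (diophFn_subst df (g := fun j (z : Option (Option (Fin n)) → ℕ) =>
        (Fin.cases (z none) (fun j => z (some (some j))) j : ℕ)) (by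
          intro j
          refine Fin.cases ?_ (fun j => ?_) j
          · exact Dioph.proj_dioph _
          · exact Dioph.proj_dioph _)) (Dioph.const_dioph 0)
    have d2 := ball_dioph (f := fun v : Option (Fin n) → ℕ => v none) (Dioph.proj_dioph _) dR
    refine (d1.inter d2).ext fun v => ?_
    show _ ↔ v none ∈ (Nat.rfind fun n_1 => (some (decide
        (f (n_1 ::ᵥ List.Vector.ofFn (v ∘ some)) = 0)) : Part Bool))
    rw [e]
    constructor
    · rintro ⟨h1, h2⟩
      refine ⟨?_, fun i hi => ?_⟩
      · rw [hv]; exact h1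
      · rw [hv]; exact h2 i hi
    · rintro ⟨h1, h2⟩
      refine ⟨?_, fun i hi => ?_⟩
      · rw [hv] at h1; exact h1
      · have := h2 i hi
        rw [hv] at this; exact this

/-- **DPRM**: recursively enumerable sets of natural numbers are Diophantine. -/
theorem re_dioph {p : ℕ → Prop} (hp : REPred p) : Dioph {v : Unit → ℕ | p (v ())} := by
  have h1 : Partrec fun a => Part.assert (p a) fun _ => Part.some () := hp
  have h2 : Partrec fun a : ℕ => (Part.assert (p a) fun _ => Part.some ()).map fun _ => (0 : ℕ) :=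
    h1.map (Computable.const 0).to₂
  have h3 := partrec'_dioph (Nat.Partrec'.part_iff₁.2 h2)
  have h4 : Dioph {v : Option (Fin 1) → ℕ | p (v (some 0)) ∧ v none = 0} := by
    refine h3.ext fun v => ?_
    have : (List.Vector.ofFn (v ∘ some)).head = v (some 0) := by
      rw [← List.Vector.get_zero, List.Vector.get_ofFn]; rfl
    show v none ∈ (Part.assert (p (List.Vector.ofFn (v ∘ some)).head) _).map _ ↔ _
    rw [this]
    simp only [Part.mem_map_iff, Part.mem_assert_iff, Part.mem_some_iff]
    constructor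
    · rintro ⟨_, ⟨h, _⟩, h'⟩
      exact ⟨h, h'.symm⟩
    · rintro ⟨h, h'⟩
      exact ⟨(), ⟨h, trivial⟩, h'.symm⟩
  have h5 := dioph_subst (α := Unit) h4 (g := fun o v => o.elim 0 fun _ => v ()) (by
    rintro (_ | j)
    · exact Dioph.const_dioph 0
    · exact Dioph.proj_dioph _)
  refine h5.ext fun v => ?_
  show (p (v ()) ∧ 0 = 0) ↔ p (v ())
  simp

/-- There is a Diophantine set of natural numbers which is not computable. -/
theorem exists_dioph_not_computable :
    ∃ p : ℕ → Prop, Dioph {v : Unit → ℕ | p (v ())} ∧ ¬ ComputablePred p := by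
  refine ⟨fun n => (Nat.Partrec.Code.eval (Denumerable.ofNat Nat.Partrec.Code n) 0).Dom,
    re_dioph (p := fun n => (Nat.Partrec.Code.eval (Denumerable.ofNat Nat.Partrec.Code n) 0).Dom)
      ?_, fun h => ?_⟩
  · have h1 : Partrec fun c : Nat.Partrec.Code => Part.assert ((c.eval 0).Dom) fun _ =>
      Part.some () := ComputablePred.halting_problem_re 0
    exact h1.comp (Computable.ofNat Nat.Partrec.Code)
  · refine ComputablePred.halting_problem 0 ?_
    have h1 := ComputablePred.computable_iff.1 h
    obtain ⟨f, hf, hfe⟩ := h1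
    refine ComputablePred.computable_iff.2 ⟨fun c => f (Encodable.encode c),
      hf.comp Computable.encode, ?_⟩
    funext c
    have := congrFun hfe (Encodable.encode c)
    simp only [Denumerable.ofNat_encode] at this
    exact this

end Pool.Agent.MRDPh23
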